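import Pool.Agent.K6.H59.EB.Main

set_option autoImplicit false

/-!
# Exponential polynomials in integral parts of real polynomials, with values on hyperbolic varieties

Let `p_1, …, p_r` be real polynomials in one variable and `g_1, …, g_t` nonzero complex numbers. For
`n ∈ ℕ` put `w_i(n) = ⌊p_i(n)⌋`, and let

  `x(n) = P(w_1(n), …, w_r(n), g_1^{w_1(n)}, …, g_l^{w_i(n)}, …, g_t^{w_r(n)})`,

with a vector `P = (P_0, …, P_N)` of polynomials in `r + t r` variables over `ℂ`. For instance, all
vectors `x(n) = A_1^{⌊p_1(n)⌋} ⋯ A_r^{⌊p_r(n)⌋} x_0` with invertible complex matrices `A_i` are of this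
form, as are the linear recurrence sequences `u(⌊p(n)⌋)` along integral parts of polynomials, sums
of products of such sequences, and (without `g_l`) the polynomials in integral parts
of real polynomials.

Let `X` be a closed subset of the projective `N`-space over `ℂ`, and suppose that `x(n)` is in the
cone over `X` for all `n`. So the nonzero `x(n)` represent points of `X`; if `P`, the `g_l` and `X` are
defined over a number field `k ⊆ ℂ`, these are points of `X(k)`.

(1) If `X` is Brody (equivalently Kobayashi) hyperbolic, then there is no nonconstant polynomial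
    curve on `X`.

(2) There is a number `B`, which depends only on the real polynomials `p_i` and on the `g_l` (and
    neither on `N`, nor on `X`, nor on `P`), such that all the `x(n)`, `n ∈ ℕ`, represent at most `B`
    points which are not on nonconstant polynomial curves in `X`. So if `X` is hyperbolic, the
    `x(n)` represent at most `B` points.

All `n` are admitted, `B` does not depend on the degree of `P`, and the `x(n)` can grow like
`exp(n ^ d)`. (For polynomials in integral parts which may be nested, without exponentials, the
indicator functions of sparse sets are of this form, and there can only be results on the density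
of the exceptional `n`; see `MP_e52354_nt.GeneralisedPolynomialPoints`.)

Method: The `p_i` and the arguments of the numbers `g_l ^ {p_i(n)}` are expressed, up to real
polynomials with rational nonconstant coefficients, by real polynomials `q_j` without relations; the
`q_j(n)` are dense modulo one by Weyl's theorem. On one residue class, and as long as the fractional
parts `y(n)` of the `q_j(n)` stay in one cell, `x(n)` is a function of `n` and `y(n)` which is a sum of
terms `n ^ a exp(c(n)) f(y(n))`, with real polynomials `c` and analytic functions `f`. Comparison of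
growth and density show that the equations of `X`, which vanish at `(n, y(n))`, vanish identically;
hence `x` extends to all integral points of an affine space. On the line through two points, the values
are polynomials in `τ` and in functions `exp(τ e_a(τ))` with polynomials `e_a` which are algebraically
independent on `ℕ` (again by Weyl's theorem), so that the two values are on a polynomial curve.
Therefore each cell contributes at most one point.
-/

namespace Pool.Agent.Results.MP_627a61_nt.BracketExponentialSequences

open Polynomial
open Pool.Agent.H458.Sp (BrodyHyperbolic)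

/-- the vector `x(n)`: the polynomials `P` in the variables `w_i = ⌊p_i(n)⌋` (the `inl i`) and
`g_l ^ w_i` (the `inr (l, i)`) -/
noncomputable def vector {r t N : ℕ} (p : Fin r → ℝ[X]) (g : Fin t → ℂ)
    (P : Fin (N + 1) → MvPolynomial (Fin r ⊕ (Fin t × Fin r)) ℂ) (n : ℕ) : Fin (N + 1) → ℂ :=
  fun k => MvPolynomial.eval (Sum.elim (fun i => ((⌊(p i).eval (n : ℝ)⌋ : ℤ) : ℂ))
    (fun li => g li.1 ^ ⌊(p li.2).eval (n : ℝ)⌋)) (P k)

/-- The point represented by `z` is on a nonconstant polynomial curve `q` on the projective variety
with the equations `FF`. -/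
def OnCurve {N : ℕ} (FF : Set (MvPolynomial (Fin (N + 1)) ℂ)) (z : Fin (N + 1) → ℂ) : Prop :=
  ∃ q : Fin (N + 1) → ℂ[X], (∀ F ∈ FF, MvPolynomial.aeval q F = 0) ∧
    (∀ i, (q i).eval 0 = z i) ∧
    ∃ (a b : ℂ) (i j : Fin (N + 1)), (q i).eval a * (q j).eval b ≠ (q j).eval a * (q i).eval b

/-- Exponential polynomials in integral parts of real polynomials, with values on a variety,
represent at most `B` points which are not on polynomial curves. -/
theorem result :
    (∀ (N : ℕ) (FF : Set (MvPolynomial (Fin (N + 1)) ℂ)), (∀ F ∈ FF, ∃ m, F.IsHomogeneous m) →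
      BrodyHyperbolic FF → ∀ z, ¬ OnCurve FF z) ∧
    ∀ (r t : ℕ) (p : Fin r → ℝ[X]) (g : Fin t → ℂ), (∀ l, g l ≠ 0) → ∃ B : ℕ,
      ∀ (N : ℕ) (FF : Set (MvPolynomial (Fin (N + 1)) ℂ)), (∀ F ∈ FF, ∃ m, F.IsHomogeneous m) →
      ∀ P : Fin (N + 1) → MvPolynomial (Fin r ⊕ (Fin t × Fin r)) ℂ,
      (∀ n : ℕ, ∀ F ∈ FF, MvPolynomial.eval (vector p g P n) F = 0) →
        {Q : Projectivization ℂ (Fin (N + 1) → ℂ) | ∃ (n : ℕ) (h : vector p g P n ≠ 0),
          ¬ OnCurve FF (vector p g P n) ∧
          Q = Projectivization.mk ℂ (vector p g P n) h}.encard ≤ B := by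
  classical
  refine ⟨?_, ?_⟩
  · rintro N FF hom hyp z ⟨q, hq, -, a, b, i, j, hne⟩
    exact hne (Pool.Agent.TH409.SH.no_curveC' FF hom hyp q hq i j a b)
  · intro r t p g hg
    obtain ⟨T, lab, hfin, hmain⟩ := Pool.Agent.K6.H59.EB.main r t p g hg
    refine ⟨(Set.range lab).ncard, fun N FF hom P hx => ?_⟩
    have hvec : ∀ n, vector p g P n = Pool.Agent.K6.H59.EB.vec p g P n := fun n => rfl
    rw [Set.Finite.cast_ncard_eq hfin]
    set S := {Q : Projectivization ℂ (Fin (N + 1) → ℂ) | ∃ (n : ℕ) (h : vector p g P n ≠ 0),
          ¬ OnCurve FF (vector p g P n) ∧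
          Q = Projectivization.mk ℂ (vector p g P n) h} with hS
    choose! n hn1 hn2 hn3 using fun (Q : Projectivization ℂ (Fin (N + 1) → ℂ)) (hQ : Q ∈ S) => hQ
    refine Set.encard_le_encard_of_injOn (f := fun Q => lab (n Q)) (fun Q _ => ⟨_, rfl⟩) ?_
    intro Q₁ h₁ Q₂ h₂ h12
    simp only at h12
    rw [hn3 Q₁ h₁, hn3 Q₂ h₂]
    rcases hmain N FF hom P (fun m F hF => by rw [← hvec]; exact hx m F hF) (n Q₁) (n Q₂) h12 with
      h | ⟨q, hq1, hq2, c, hc, hq3⟩
    · simp only [h]
    · have hcross : ∀ i j, vector p g P (n Q₁) i * vector p g P (n Q₂) j =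
          vector p g P (n Q₁) j * vector p g P (n Q₂) i := by
        intro i j
        by_contra hne
        apply hn2 Q₁ h₁
        refine ⟨q, hq1, fun k => hq2 k, 0, 1, i, j, ?_⟩
        rw [hq2, hq2, hq3, hq3]
        intro h
        apply hne
        rw [hvec, hvec]
        apply mul_left_cancel₀ hc
        linear_combination h
      rw [Projectivization.mk_eq_mk_iff']
      obtain ⟨j, hj⟩ : ∃ j, vector p g P (n Q₂) j ≠ 0 := by
        by_contra hcon
        push Not at hcon
        exact hn1 Q₂ h₂ (funext hcon)
      refine ⟨vector p g P (n Q₁) j / vector p g P (n Q₂) j, ?_⟩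
      funext i
      rw [Pi.smul_apply, smul_eq_mul, div_mul_eq_mul_div, div_eq_iff hj]
      exact (hcross i j).symm

end Pool.Agent.Results.MP_627a61_nt.BracketExponentialSequences
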