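import Pool.Agent.K6.H47.GR.Main
import Pool.Agent.N419.HU.Uni
import Pool.Agent.Y377.ST.Conv
import Pool.Agent.TH409.SH.Fin2

set_option autoImplicit false

/-!
# Sets of rational points on hyperbolic varieties have no group structure at any scale

Let `X` be a closed subset of projective `n`-space over a field `K` of characteristic zero which is
given by forms of degree at most `d`. We consider arbitrary finite subsets `A` of arbitrary groups
`H`, such that each `a ∈ A` represents a point of `X(K)` with homogeneous coordinates `M ρ(a) v`, for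
a representation `ρ : H → GL_r(K)`. Let each point be represented by at most `μ` elements of `A`.

(1) If `X` contains no nonconstant rational curve, then, with `Q = 2 ^ ((r + 1) ^ d)`,

* `|A| ^ Q ≤ (2 B) ^ Q μ |A A⁻¹| ^ (Q - 1)`, that is `|A A⁻¹| ≥ c |A| (|A| / μ) ^ (1 / (Q - 1))`,
* `|A| ^ Q |T| ^ (Q - 1) ≤ (2 B) ^ Q μ |A T| ^ (2 (Q - 1))` for all finite subsets `T` of `H`,
* `|A| E(A) ^ (18 Q) ≤ (2 ^ 47 B) ^ Q μ |A| ^ (54 Q)`, where `E(A)` is the number of the solutions of
  `a b⁻¹ = c d⁻¹` in `A`, that is `E(A) ≤ C |A| ^ 3 (μ / |A|) ^ (1 / (18 Q))`.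

Here `B` depends only on `n`, `d` and `r`, not on `X`, `K` or `H`.

(2) In particular (`AddGrowth`, `MulGrowth`), if `S` is a finite set of `K`-rational points of an
affine chart of `X`, or of a toric chart, given by their affine coordinates in `K ^ n` or `(Kˣ) ^ n`,
then, with `Q = 2 ^ ((n + 2) ^ d)`, `|S| ^ Q ≤ (2 B) ^ Q |S - S| ^ (Q - 1)` or
`|S| ^ Q ≤ (2 B) ^ Q |S / S| ^ (Q - 1)`, and the additive or multiplicative energy of `S` is at most
`C |S| ^ (3 - 1 / (18 Q))`, where `B` and `C` depend only on `n` and `d`.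

(3) Let `X` be defined over the number field `k`, with an embedding `σ : k → ℂ`. If `X_σ` is Brody
(equivalently Kobayashi) hyperbolic, it contains no nonconstant rational curve. The latter is
equivalent to the three inequalities of (1), for all number fields `K ⊇ k`, with the explicit number
`B = ∏_{f = 1}^{[K : ℚ]} |GL_r(𝔽_{2^f})| |GL_r(𝔽_{3^f})|`, which does not depend on `n` and `d`.

Proof. (a) The functions on `H` that are polynomials of degree at most `d` in `ρ(h) v` form a space
`W` of dimension at most `(r + 1) ^ d`. Let `I` be the space of the functions in `W` that vanish on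
`A`. If `A ∩ g⁻¹ A` has the same space, then `g` is in the stabiliser of `I`, a subgroup whose orbits
through `A` are on `X`, and represent few points by the theorems on orbits of the starting files. So
by induction on the codimension of `I` the intersections `A ∩ g⁻¹ A` are small for all other `g`. (b)
The bound for the energy follows from the theorem of Balog, Szemerédi and Gowers, which we prove for
arbitrary groups.
-/

namespace Pool.Agent.Results.MP_627a61_nt.GrowthAndEnergy

open Finset Matrix Pool.Agent.H458.Sp Pool.Agent.TH717.GO Pool.Agent.N419.HU Pool.Agent.Y377.ST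
  Pool.Agent.K6.H47.GR
open scoped Pointwise

open Classical in
/-- Growth of the finite sets `A` of elements of groups which represent points `M ρ(a) v` over `K` of
the variety of the forms in `FF`, each point being represented by at most `μ` elements of `A`.
(`Pool.Agent.K6.H47.GR.energy A` is the number of the quadruples in `A` with `a / b = c / e`.) -/
def Growth {k : Type} [Field k] {n : ℕ} (FF : Set (MvPolynomial (Fin (n + 1)) k))
    (K : Type) [Field K] [Algebra k K] (d r B : ℕ) : Prop :=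
  ∀ (H : Type) [Group H] [DecidableEq H] (ρ : H →* GL (Fin r) K)
    (M : Matrix (Fin (n + 1)) (Fin r) K) (v : Fin r → K) (A : Finset H) (μ : ℕ),
    (∀ a ∈ A, M.mulVec ((ρ a : Matrix (Fin r) (Fin r) K).mulVec v) ≠ 0) →
    (∀ a ∈ A, ∀ F ∈ FF,
      MvPolynomial.aeval (M.mulVec ((ρ a : Matrix (Fin r) (Fin r) K).mulVec v)) F = 0) →
    (∀ a ∈ A, #{b ∈ A | ∃ s : K, M.mulVec ((ρ b : Matrix (Fin r) (Fin r) K).mulVec v) =
      s • M.mulVec ((ρ a : Matrix (Fin r) (Fin r) K).mulVec v)} ≤ μ) →
    ∀ Q : ℕ, Q = 2 ^ (r + 1) ^ d →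
      #A ^ Q ≤ (2 * B) ^ Q * μ * #(A / A) ^ (Q - 1) ∧
      (∀ T : Finset H, #A ^ Q * #T ^ (Q - 1) ≤ (2 * B) ^ Q * μ * (#(A * T) ^ 2) ^ (Q - 1)) ∧
      #A * energy A ^ (18 * Q) ≤ (2 ^ 47 * B) ^ Q * μ * #A ^ (54 * Q)

/-- from a bound for the orbits to growth -/
theorem growth_of_bd {k : Type} [Field k] {n : ℕ} (FF : Set (MvPolynomial (Fin (n + 1)) k))
    (K : Type) [Field K] [Algebra k K] (d r B : ℕ) (hhom : ∀ F ∈ FF, ∃ e ≤ d, F.IsHomogeneous e)
    (hB1 : 1 ≤ B) (hB : ∀ (H : Type) [Group H] (ρ : H →* GL (Fin r) K)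
      (M : Matrix (Fin (n + 1)) (Fin r) K), OrbBd FF ρ M B) : Growth FF K d r B := by
  classical
  intro H _ _ ρ M v A μ h0 hX hμ Q hQ
  have key : ∀ A' ⊆ A, #A' ^ Q ≤ (2 * B) ^ Q * μ * #(A' / A') ^ (Q - 1) := by
    intro A' hA'
    rw [hQ]
    refine growth_orb FF hhom ρ M v hB1 (hB H ρ M) A' (fun a ha => h0 a (hA' ha))
      (fun a ha => hX a (hA' ha)) μ (fun a ha => ?_)
    exact (Finset.card_le_card (Finset.filter_subset_filter _ hA')).trans (hμ a (hA' ha))
  exact ⟨key A subset_rfl, fun T => prod_growth A T μ B Q (key A subset_rfl),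
    energy_growth A μ B Q (by rw [hQ]; exact Nat.one_le_two_pow) key⟩

theorem noRatC_cur {k : Type} [Field k] {n : ℕ} (σ : k →+* ℂ)
    (FF : Set (MvPolynomial (Fin (n + 1)) k)) (h : NoRatC σ FF) : CurIn σ FF {1} :=
  fun q hq _ => h q hq

theorem uniform_bd (n d r : ℕ) : ∃ B : ℕ, ∀ (K : Type) [Field K] (τ : K →+* ℂ)
    (FF : Set (MvPolynomial (Fin (n + 1)) K)), (∀ F ∈ FF, ∃ e ≤ d, F.IsHomogeneous e) →
    NoRatC τ FF → Growth FF K d r B := by
  obtain ⟨B, hB⟩ := uniform_all n d 1 r 1
  refine ⟨B + 1, fun K _ τ FF hFF hno => ?_⟩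
  refine growth_of_bd FF K d r (B + 1) hFF (Nat.le_add_left _ _) ?_
  intro H _ ρ M H' v hX
  have h1 := hB K τ FF {1} hFF (by
    rintro _ rfl
    exact ⟨0, Nat.zero_le _, MvPolynomial.isHomogeneous_one _ _⟩) (noRatC_cur τ FF hno) H'
    (orb M (ρ.comp H'.subtype) v) (iterVec_orb M (ρ.comp H'.subtype) v) (by
      intro h F hF
      rw [← MvPolynomial.coe_aeval_eq_eval]
      exact hX h F hF)
  refine (le_trans (Set.encard_le_encard ?_) h1).trans (by exact_mod_cast Nat.le_succ B)
  rintro P ⟨h, h0, rfl⟩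
  exact ⟨h, h0, ⟨1, rfl, by rw [map_one]; exact one_ne_zero⟩, rfl⟩

/-- unipotent matrices -/
def unip {K : Type} [Field K] {n : ℕ} (s : Fin n → K) : Matrix (Fin (n + 1)) (Fin (n + 1)) K :=
  1 + Matrix.of fun i j => if j = 0 then (Fin.cons 0 s : Fin (n + 1) → K) i else 0

theorem unip_add {K : Type} [Field K] {n : ℕ} (s t : Fin n → K) :
    unip (s + t) = unip s * unip t := by
  unfold unip
  have h0 : (Matrix.of fun i j : Fin (n + 1) => if j = 0 then (Fin.cons 0 s : Fin (n + 1) → K) i
      else 0) * (Matrix.of fun i j : Fin (n + 1) => if j = 0 then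
        (Fin.cons 0 t : Fin (n + 1) → K) i else 0) = 0 := by
    ext i j
    rw [Matrix.mul_apply, Fin.sum_univ_succ]
    simp [Fin.succ_ne_zero]
  rw [mul_add, add_mul, add_mul, h0, mul_one, mul_one, one_mul, add_zero, add_assoc]
  congr 1
  ext i j
  by_cases hj : j = 0
  · refine Fin.cases ?_ (fun i => ?_) i
    · simp [hj]
    · simp [hj]
  · simp [hj]

/-- the additive group as a group of unipotent matrices -/
def addRep {K : Type} [Field K] (n : ℕ) : Multiplicative (Fin n → K) →* GL (Fin (n + 1)) K :=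
  MonoidHom.toHomUnits
    { toFun := fun s => unip (Multiplicative.toAdd s)
      map_one' := by
        change unip (0 : Fin n → K) = 1
        unfold unip
        ext i j
        refine Fin.cases ?_ (fun i => ?_) i
        · simp
        · simp
      map_mul' := fun s t => unip_add _ _ }

theorem addRep_vec {K : Type} [Field K] (n : ℕ) (s : Multiplicative (Fin n → K)) :
    (1 : Matrix (Fin (n + 1)) (Fin (n + 1)) K).mulVec
      ((addRep n s : Matrix (Fin (n + 1)) (Fin (n + 1)) K).mulVec (Pi.single 0 1)) =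
      Fin.cons 1 (Multiplicative.toAdd s) := by
  rw [Matrix.one_mulVec, Matrix.mulVec_single_one]
  funext i
  change unip (Multiplicative.toAdd s) i 0 = _
  unfold unip
  refine Fin.cases ?_ (fun i => ?_) i
  · simp
  · simp [Fin.succ_ne_zero]

/-- the multiplicative group as a group of diagonal matrices -/
def mulRep {K : Type} [Field K] (n : ℕ) : (Fin n → Kˣ) →* GL (Fin (n + 1)) K :=
  MonoidHom.toHomUnits
    { toFun := fun s => Matrix.diagonal (Fin.cons 1 fun i => (s i : K))
      map_one' := by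
        rw [← Matrix.diagonal_one]
        congr 1
        funext i
        refine Fin.cases ?_ (fun i => ?_) i
        · simp
        · simp
      map_mul' := fun s t => by
        rw [Matrix.diagonal_mul_diagonal]
        congr 1
        funext i
        refine Fin.cases ?_ (fun i => ?_) i
        · simp
        · simp }

theorem mulRep_vec {K : Type} [Field K] (n : ℕ) (s : Fin n → Kˣ) :
    (1 : Matrix (Fin (n + 1)) (Fin (n + 1)) K).mulVec
      ((mulRep n s : Matrix (Fin (n + 1)) (Fin (n + 1)) K).mulVec (fun _ => 1)) =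
      Fin.cons 1 fun i => (s i : K) := by
  rw [Matrix.one_mulVec]
  funext i
  change ((Matrix.diagonal (Fin.cons 1 fun i => (s i : K))).mulVec fun _ => 1) i = _
  rw [Matrix.mulVec_diagonal, mul_one]

theorem cons_eq {K : Type} [Field K] {n : ℕ} {s : K} {x y : Fin n → K}
    (h : (Fin.cons 1 x : Fin (n + 1) → K) = s • (Fin.cons 1 y : Fin (n + 1) → K)) : x = y := by
  have h0 := congrFun h 0
  simp only [Fin.cons_zero, Pi.smul_apply, smul_eq_mul, mul_one] at h0
  rw [← h0, one_smul] at h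
  funext i
  have := congrFun h i.succ
  simpa using this

open Classical in
/-- Finite sets `S` of rational points of an affine chart, with the additive group. -/
def AddGrowth {k : Type} [Field k] {n : ℕ} (FF : Set (MvPolynomial (Fin (n + 1)) k)) (B Q : ℕ) :
    Prop :=
  ∀ S : Finset (Fin n → k), (∀ s ∈ S, ∀ F ∈ FF, MvPolynomial.eval (Fin.cons 1 s) F = 0) →
    #S ^ Q ≤ (2 * B) ^ Q * #(S - S) ^ (Q - 1) ∧
    #S * #{x ∈ (S ×ˢ S) ×ˢ (S ×ˢ S) | x.1.1 - x.1.2 = x.2.1 - x.2.2} ^ (18 * Q) ≤
      (2 ^ 47 * B) ^ Q * #S ^ (54 * Q)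

open Classical in
/-- Finite sets `S` of rational points of a toric chart, with the multiplicative group. -/
def MulGrowth {k : Type} [Field k] {n : ℕ} (FF : Set (MvPolynomial (Fin (n + 1)) k)) (B Q : ℕ) :
    Prop :=
  ∀ S : Finset (Fin n → kˣ),
    (∀ s ∈ S, ∀ F ∈ FF, MvPolynomial.eval (Fin.cons 1 fun i => (s i : k)) F = 0) →
    #S ^ Q ≤ (2 * B) ^ Q * #(S / S) ^ (Q - 1) ∧
    #S * #{x ∈ (S ×ˢ S) ×ˢ (S ×ˢ S) | x.1.1 / x.1.2 = x.2.1 / x.2.2} ^ (18 * Q) ≤
      (2 ^ 47 * B) ^ Q * #S ^ (54 * Q)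

theorem addGrowth {k : Type} [Field k] {n : ℕ} (FF : Set (MvPolynomial (Fin (n + 1)) k)) (d B : ℕ)
    (h : Growth FF k d (n + 1) B) : AddGrowth FF B (2 ^ (n + 1 + 1) ^ d) := by
  intro S hS
  classical
  obtain ⟨h1, -, h3⟩ := @h (Multiplicative (Fin n → k)) inferInstance
    (inferInstance : DecidableEq (Fin n → k)) (addRep n) 1 (Pi.single 0 1)
    (S : Finset (Multiplicative (Fin n → k))) 1 (by
      intro a _ h0
      rw [addRep_vec] at h0
      have := congrFun h0 0
      simp at this) (by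
      intro a ha F hF
      rw [addRep_vec]
      have h2 := hS a ha F hF
      rw [← MvPolynomial.coe_aeval_eq_eval] at h2
      exact h2) (by
      intro a _
      rw [Finset.card_le_one]
      intro b hb c hc
      obtain ⟨-, s, hs⟩ := Finset.mem_filter.1 hb
      obtain ⟨-, t, ht⟩ := Finset.mem_filter.1 hc
      rw [addRep_vec, addRep_vec] at hs ht
      exact (cons_eq hs).trans (cons_eq ht).symm) _ rfl
  rw [mul_one] at h1 h3
  exact ⟨h1, h3⟩

theorem mulGrowth {k : Type} [Field k] {n : ℕ} (FF : Set (MvPolynomial (Fin (n + 1)) k)) (d B : ℕ)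
    (h : Growth FF k d (n + 1) B) : MulGrowth FF B (2 ^ (n + 1 + 1) ^ d) := by
  classical
  intro S hS
  obtain ⟨h1, -, h3⟩ := h (Fin n → kˣ) (mulRep n) 1 (fun _ => 1) S 1 (by
      intro a _ h0
      rw [mulRep_vec] at h0
      have := congrFun h0 0
      simp at this) (by
      intro a ha F hF
      rw [mulRep_vec]
      have h2 := hS a ha F hF
      rw [← MvPolynomial.coe_aeval_eq_eval] at h2
      exact h2) (by
      intro a _
      rw [Finset.card_le_one]
      intro b hb c hc
      obtain ⟨-, s, hs⟩ := Finset.mem_filter.1 hb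
      obtain ⟨-, t, ht⟩ := Finset.mem_filter.1 hc
      rw [mulRep_vec, mulRep_vec] at hs ht
      have h4 := (cons_eq hs).trans (cons_eq ht).symm
      funext i
      exact Units.ext (congrFun h4 i)) _ rfl
  rw [mul_one] at h1 h3
  exact ⟨h1, h3⟩

/-- arithmetic of the converse -/
theorem conv_arith (C N Q : ℕ) (hQ : 1 ≤ Q)
    (h : ∀ L : ℕ, ∃ a : ℕ, L ≤ a + N ∧ a ^ Q ≤ C * (2 * L + 1) ^ (Q - 1)) : False := by
  obtain ⟨a, ha, hle⟩ := h (N + (C * 3 ^ (Q - 1) + 2 * N + 1))
  set M : ℕ := C * 3 ^ (Q - 1) + 2 * N + 1 with hM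
  have h1 : M ≤ a := by omega
  have h2 : 2 * (N + M) + 1 ≤ 3 * M := by omega
  have h3 : M ^ Q ≤ C * (3 * M) ^ (Q - 1) :=
    (Nat.pow_le_pow_left h1 _).trans (hle.trans (Nat.mul_le_mul_left _
      (Nat.pow_le_pow_left h2 _)))
  have h4 : M * M ^ (Q - 1) ≤ (C * 3 ^ (Q - 1)) * M ^ (Q - 1) := by
    calc M * M ^ (Q - 1) = M ^ Q := by rw [← pow_succ', Nat.sub_add_cancel hQ]
      _ ≤ _ := h3
      _ = _ := by rw [mul_pow]; ring
  have h5 : M ≤ C * 3 ^ (Q - 1) :=
    Nat.le_of_mul_le_mul_right h4 (Nat.pow_pos (by omega))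
  omega

/-- (1) For all `n, d, r` there is `B` such that `Growth` holds for all varieties without nonconstant
rational curves which are given by forms of degree at most `d` in projective `n`-space over a field
`K` embedded in `ℂ`. (2) For all `n, d` there is `B` such that `AddGrowth` and `MulGrowth` hold for
all these varieties. (3) For a variety over a number field `k`: if it is Brody hyperbolic, it
contains no nonconstant rational curve; this is equivalent to `Growth` over all number fields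
`K ⊇ k` with the explicit constant. -/
theorem result :
    (∀ n d r : ℕ, ∃ B : ℕ, ∀ (K : Type) [Field K] (τ : K →+* ℂ)
      (FF : Set (MvPolynomial (Fin (n + 1)) K)), (∀ F ∈ FF, ∃ e ≤ d, F.IsHomogeneous e) →
      NoRatC τ FF → Growth FF K d r B) ∧
    (∀ n d : ℕ, ∃ B : ℕ, ∀ (K : Type) [Field K] (τ : K →+* ℂ)
      (FF : Set (MvPolynomial (Fin (n + 1)) K)), (∀ F ∈ FF, ∃ e ≤ d, F.IsHomogeneous e) →
      NoRatC τ FF → AddGrowth FF B (2 ^ (n + 2) ^ d) ∧ MulGrowth FF B (2 ^ (n + 2) ^ d)) ∧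
    ∀ (k : Type) [Field k] [NumberField k] (n d : ℕ) (FF : Set (MvPolynomial (Fin (n + 1)) k)),
      (∀ F ∈ FF, ∃ e ≤ d, F.IsHomogeneous e) → ∀ σ : k →+* ℂ,
      (BrodyHyperbolic ((MvPolynomial.map σ) '' FF) → NoRatC σ FF) ∧
      (NoRatC σ FF ↔ ∀ (r : ℕ) (K : Type) [Field K] [NumberField K] [Algebra k K],
        Growth FF K d r (∏ f ∈ Finset.Icc 1 (Module.finrank ℚ K),
          ((∏ i ∈ Finset.range r, ((2 ^ f) ^ r - (2 ^ f) ^ i)) *
            ∏ i ∈ Finset.range r, ((3 ^ f) ^ r - (3 ^ f) ^ i)))) := by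
  classical
  refine ⟨uniform_bd, fun n d => ?_, fun k _ _ n d FF hhom σ => ⟨fun hyp => ?_, fun hno => ?_, fun h => ?_⟩⟩
  · obtain ⟨B, hB⟩ := uniform_bd n d (n + 1)
    exact ⟨B, fun K _ τ FF hFF hno => ⟨addGrowth FF d B (hB K τ FF hFF hno),
      mulGrowth FF d B (hB K τ FF hFF hno)⟩⟩
  · intro q hq i j a b
    refine Pool.Agent.TH409.SH.no_curveC' _ ?_ hyp q ?_ i j a b
    · rintro _ ⟨F, hF, rfl⟩
      obtain ⟨e, -, he⟩ := hhom F hF
      exact ⟨e, he.map _⟩
    · rintro _ ⟨F, hF, rfl⟩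
      rw [MvPolynomial.aeval_def, MvPolynomial.eval₂_map]
      exact hq F hF
  · intro r K _ _ _
    refine growth_of_bd FF K d r (bd r (Module.finrank ℚ K)) hhom (bd_pos _ _) ?_
    intro H _ ρ M H' v hX
    rw [orbitPts_eq (k := k)]
    exact uni_core FF (fun F hF => by
      obtain ⟨e, -, he⟩ := hhom F hF
      exact ⟨e, he⟩) 1 ⟨0, MvPolynomial.isHomogeneous_one _ _⟩ (noRat_all σ _ hno (r * r))
      (specDeg_of_numberField K _ le_rfl) _ M v hX
  · by_contra hno
    obtain ⟨N, K, iK, iN, iA, w, hw, hnc⟩ := curve_nf σ FF hno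
    refine conv_arith ((2 * bd N (Module.finrank ℚ K)) ^ 2 ^ (N + 1) ^ d * N) N
      (2 ^ (N + 1) ^ d) Nat.one_le_two_pow fun L => ?_
    obtain ⟨A, hA0, hAμ, hAL, hAA⟩ := no_growth _ (cur_natDegree w) hnc
      (orb (M0 w) (dia K N) (fun _ => 1)) (orb_cur w) L
    have h1 := (h N K (Multiplicative ℤ) (dia K N) (M0 w) (fun _ => 1) A N hA0 (by
      intro a _ F hF
      have h2 : MvPolynomial.aeval (orb (M0 w) (dia K N) (fun _ => 1) a) F = 0 := by
        rw [orb_cur]
        have h3 := MvPolynomial.comp_aeval_apply (R := k)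
          (Pool.Agent.H533R3.SL.cur w (fun j => (j : ℕ)))
          ((Polynomial.aeval ((2 : K) ^ (Multiplicative.toAdd a)) :
            Polynomial K →ₐ[K] K).restrictScalars k) F
        rw [hw F hF, map_zero] at h3
        exact h3.symm
      exact h2) hAμ _ rfl).1
    exact ⟨#A, hAL, h1.trans (Nat.mul_le_mul_left _ (Nat.pow_le_pow_left hAA _))⟩

end Pool.Agent.Results.MP_627a61_nt.GrowthAndEnergy
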