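import Pool.Agent.TH409.SH.Fin2
import Pool.Agent.K6.H82.RW.App
import Pool.Agent.K6.H82.RW.Conv

set_option autoImplicit false

/-!
# Random products of matrices on hyperbolic varieties

Let `X` be a closed subset of projective `n`-space over a number field `k`, given by the forms in
`FF`, and let `σ` be an embedding of `k` in `ℂ`.

(1) If `X_σ` is Brody (equivalently Kobayashi) hyperbolic, then `X_σ` contains no nonconstant
rational curve.

(2) `X_σ` contains no nonconstant rational curve if and only if random products of matrices over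
number fields `K ⊇ k` rarely give points of `X(K)`, finitely many points excepted: for all finite
families `g_a`, `a ∈ A`, of invertible `r × r` matrices over `K`, all `M` and `v`, there is a finite
set `C` of points such that for random words `a₁ a₂ ⋯` of independent letters (with any law which
gives positive probability to all letters) the probability that `M g_(a₁) ⋯ g_(a_m) v` is a point of
`X` outside of `C` tends to `0` with `m` in the sense of Cesàro, and, if one of the matrices is the
identity, in the usual sense.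

(3) Uniform version. Let `H` be a group generated by the finite family `x_a`, `a ∈ A`, and `ρ` a
representation of `H` over a number field `K`. There is a number `B` such that for all `d`, all laws
`p` on `A` and all `ε > 0` there is `η > 0` with the following property. For all number fields
`k ⊆ K`, all `n`, all closed subsets `X` of projective `n`-space without nonconstant rational curves
over `ℂ` given by any number of forms over `k` of degrees at most `d`, and all `M` and `v`, there is
a set `C` of at most `B` points, independent of `p` and `ε`, such that every finitely additive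
probability measure `μ` on `H` for which the laws of `h` and `x_a h` (`a` random with law `p`,
independent of `h`) are at distance at most `η` gives measure at most `ε` to the set of all `h` for
which `M ρ(h) v` is a point of `X` outside of `C`.

For instance, `μ` may be the law of a random word of length `m`, averaged over any `1 / η`
consecutive values of `m`; or the uniform distribution on a finite set of group elements which is
almost invariant under the generators (Følner sets in amenable groups); or a stationary or invariant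
mean (with `ε = 0` in the limit).

The number `B` is the index of a normal subgroup `N` of finite index in `H`, contained in the
preimage of the identity component of the Zariski closure of `ρ(H)`; `X` meets the orbit of a coset
of `N` in at most one point if it contains it, by the theorem on orbits of groups (`uni_core` of the
starting files). Outside of the cosets contained in the closed set `{h | M ρ(h) v ∈ X}`, its measure
is small by induction on the codimension of the space of its equations of degree at most `d`: the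
translates of the closed set have almost maximal measure too, by stationarity, they are not finite in
number, and the measure of the intersection of two of them is small, by induction.
-/

namespace Pool.Agent.Results.MP_627a61_nt.RandomProducts

open Matrix Filter Topology Pool.Agent.H458.Sp Pool.Agent.TH717.GO

/-- The vector `x` represents a point of the closed set `X : F = 0, F ∈ FF` which is not in `C`. -/
def PointOutside {k K : Type} [Field k] [Field K] [Algebra k K] {n : ℕ}
    (FF : Set (MvPolynomial (Fin (n + 1)) k)) (C : Finset (Projectivization K (Fin (n + 1) → K)))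
    (x : Fin (n + 1) → K) : Prop :=
  ∃ h0 : x ≠ 0, (∀ F ∈ FF, MvPolynomial.aeval x F = 0) ∧ Projectivization.mk K x h0 ∉ C

open Classical in
/-- The probability that a word of `m` independent random letters with law `p` is in `S`. -/
noncomputable def prob {A : Type} [Fintype A] (p : A → ℝ) (m : ℕ) (S : Set (Fin m → A)) : ℝ :=
  ∑ w : Fin m → A with w ∈ S, ∏ i, p (w i)

/-- The probability that `M g_(a₁) ⋯ g_(a_m) v`, for a random word `a₁ ⋯ a_m` of independent letters
with law `p`, is a point of `X` outside of `C`. -/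
noncomputable def hit {k K : Type} [Field k] [Field K] [Algebra k K] {n r : ℕ}
    (FF : Set (MvPolynomial (Fin (n + 1)) k)) (C : Finset (Projectivization K (Fin (n + 1) → K)))
    {A : Type} [Fintype A] (g : A → GL (Fin r) K) (M : Matrix (Fin (n + 1)) (Fin r) K)
    (v : Fin r → K) (p : A → ℝ) (m : ℕ) : ℝ :=
  prob p m {w | PointOutside FF C (M.mulVec
    (((List.ofFn fun i => g (w i)).prod : GL (Fin r) K).1.mulVec v))}

/-- Random products of matrices over number fields rarely give points of `X`, finitely many points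
excepted. -/
def RandomWords {k : Type} [Field k] {n : ℕ} (FF : Set (MvPolynomial (Fin (n + 1)) k)) : Prop :=
  ∀ (K : Type) [Field K] [NumberField K] [Algebra k K] (A : Type) [Fintype A] (r : ℕ)
    (g : A → GL (Fin r) K) (M : Matrix (Fin (n + 1)) (Fin r) K) (v : Fin r → K),
    ∃ C : Finset (Projectivization K (Fin (n + 1) → K)),
      ∀ p : A → ℝ, (∀ a, 0 < p a) → ∑ a, p a = 1 →
        Tendsto (fun L : ℕ => (∑ m ∈ Finset.range L, hit FF C g M v p m) / L) atTop (𝓝 0) ∧
        ((∃ a, g a = 1) → Tendsto (fun m => hit FF C g M v p m) atTop (𝓝 0))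

/-- `μ` is a finitely additive probability measure on the group `H`. -/
def IsMean {H : Type} (μ : Set H → ℝ) : Prop :=
  (∀ S, 0 ≤ μ S) ∧ μ Set.univ = 1 ∧ ∀ S T, Disjoint S T → μ (S ∪ T) = μ S + μ T

/-- For random `h` with law `μ` and random `a` with law `p`, independent of `h`, the distance of the
laws of `h` and `x a * h` is at most `η`. -/
def AlmostStationary {H A : Type} [Group H] [Fintype A] (x : A → H) (p : A → ℝ) (η : ℝ)
    (μ : Set H → ℝ) : Prop :=
  ∀ S, |μ S - ∑ a, p a * μ {h | x a * h ∈ S}| ≤ η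

theorem setup {k : Type} [Field k] [NumberField k] {n : ℕ}
    {FF : Set (MvPolynomial (Fin (n + 1)) k)} (hhom : ∀ F ∈ FF, ∃ e, F.IsHomogeneous e)
    {σ : k →+* ℂ} (hno : NoRatC σ FF) (K : Type) [Field K] [NumberField K] [Algebra k K] :
    Pool.Agent.K6.H47.SG.Setup k n FF K where
  czero := inferInstance
  hom := hhom
  cur := fun R => noRat_all σ FF hno R
  spec := ⟨_, specDeg_of_numberField K _ le_rfl⟩

/-- the probability as an expectation -/
theorem hit_eq {k K : Type} [Field k] [Field K] [Algebra k K] {n r : ℕ}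
    (FF : Set (MvPolynomial (Fin (n + 1)) k)) (C : Finset (Projectivization K (Fin (n + 1) → K)))
    {A : Type} [Fintype A] (g : A → GL (Fin r) K) (M : Matrix (Fin (n + 1)) (Fin r) K)
    (v : Fin r → K) (p : A → ℝ) (m : ℕ) {H : Type} [Group H] (ρ : H →* GL (Fin r) K) (x : A → H)
    (hx : ∀ a, ρ (x a) = g a) :
    hit FF C g M v p m = Pool.Agent.K6.H82.RW.E x p m (Pool.Agent.K6.H82.RW.ind
      {h | PointOutside FF C (orb M ρ v h)}) := by
  classical
  rw [Pool.Agent.K6.H82.RW.E_words]
  unfold hit prob
  rw [Finset.sum_filter]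
  refine Finset.sum_congr (by congr) fun w _ => ?_
  have h1 : ρ (List.ofFn fun i => x (w i)).prod = (List.ofFn fun i => g (w i)).prod := by
    rw [map_list_prod, List.map_ofFn]
    congr 2
    funext i
    exact hx (w i)
  have h2 : M.mulVec (((List.ofFn fun i => g (w i)).prod : GL (Fin r) K).1.mulVec v) =
      orb M ρ v (List.ofFn fun i => x (w i)).prod := by
    rw [← h1]
    rfl
  unfold Pool.Agent.K6.H82.RW.ind
  by_cases hw : PointOutside FF C (orb M ρ v (List.ofFn fun i => x (w i)).prod)
  · rw [Set.indicator_of_mem (show _ ∈ {h | PointOutside FF C (orb M ρ v h)} from hw),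
      Pi.one_apply, mul_one, if_pos]
    change PointOutside FF C _
    rw [h2]
    exact hw
  · rw [Set.indicator_of_notMem (show _ ∉ {h | PointOutside FF C (orb M ρ v h)} from hw),
      mul_zero, if_neg]
    change ¬ PointOutside FF C _
    rw [h2]
    exact hw

theorem prob_nonneg {A : Type} [Fintype A] {p : A → ℝ} (hp : ∀ a, 0 < p a) (m : ℕ)
    (S : Set (Fin m → A)) : 0 ≤ prob p m S :=
  Finset.sum_nonneg fun w _ => Finset.prod_nonneg fun i _ => (hp (w i)).le

theorem tendsto_zero {u : ℕ → ℝ} (h0 : ∀ m, 0 ≤ u m)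
    (h : ∀ ε : ℝ, 0 < ε → ∃ m₀ : ℕ, ∀ m ≥ m₀, u m ≤ ε) : Tendsto u atTop (𝓝 0) := by
  rw [tendsto_order]
  refine ⟨fun a ha => Eventually.of_forall fun m => ha.trans_le (h0 m), fun a ha => ?_⟩
  obtain ⟨m₀, hm⟩ := h (a / 2) (by linarith)
  filter_upwards [eventually_ge_atTop m₀] with m hm'
  linarith [hm m hm']

theorem random {k : Type} [Field k] [NumberField k] {n : ℕ}
    (FF : Set (MvPolynomial (Fin (n + 1)) k)) (hhom : ∀ F ∈ FF, ∃ e, F.IsHomogeneous e)
    (σ : k →+* ℂ) (hno : NoRatC σ FF) : RandomWords FF := by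
  classical
  intro K _ _ _ A _ r g M v
  -- finitely many forms suffice
  obtain ⟨FF₀, hsub, hspan⟩ : ∃ FF₀ : Finset (MvPolynomial (Fin (n + 1)) k), ↑FF₀ ⊆ FF ∧
      Ideal.span (FF₀ : Set (MvPolynomial (Fin (n + 1)) k)) = Ideal.span FF := by
    obtain ⟨S, h1, h2⟩ := (Submodule.fg_span_iff_fg_span_finset_subset FF).1
      (IsNoetherian.noetherian (Ideal.span FF))
    exact ⟨S, h1, h2.symm⟩
  have hzero : ∀ {R : Type} [CommRing R] (φ : MvPolynomial (Fin (n + 1)) k →+* R),
      (∀ F ∈ FF₀, φ F = 0) → ∀ F ∈ FF, φ F = 0 := by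
    intro R _ φ h F hF
    have h1 : Ideal.span (FF₀ : Set (MvPolynomial (Fin (n + 1)) k)) ≤ RingHom.ker φ := by
      rw [Ideal.span_le]
      exact fun G hG => h G hG
    have h2 : F ∈ Ideal.span FF := Ideal.subset_span hF
    rw [← hspan] at h2
    exact h1 h2
  have hno₀ : NoRatC σ (FF₀ : Set (MvPolynomial (Fin (n + 1)) k)) := by
    intro q hq
    exact hno q (hzero (MvPolynomial.eval₂Hom (Polynomial.C.comp σ) q) hq)
  have hhom₀ : ∀ F ∈ (FF₀ : Set (MvPolynomial (Fin (n + 1)) k)), ∃ e, F.IsHomogeneous e :=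
    fun F hF => hhom F (hsub hF)
  -- the group
  let x : A → Subgroup.closure (Set.range g) := fun a => ⟨g a, Subgroup.subset_closure ⟨a, rfl⟩⟩
  have hx : Subgroup.closure (Set.range x) = ⊤ := by
    rw [← Subgroup.closure_closure_coe_preimage (k := Set.range g)]
    congr 1
    ext y
    constructor
    · rintro ⟨a, rfl⟩
      exact ⟨a, rfl⟩
    · rintro ⟨a, ha⟩
      exact ⟨a, Subtype.ext ha⟩
  let ρ : Subgroup.closure (Set.range g) →* GL (Fin r) K := (Subgroup.closure (Set.range g)).subtype
  obtain ⟨B, hB⟩ := Pool.Agent.K6.H82.RW.app ρ x hx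
  obtain ⟨η, hη, hB⟩ := hB (FF₀.sup MvPolynomial.totalDegree)
  obtain ⟨C, -, hC⟩ := hB k n (FF₀ : Set (MvPolynomial (Fin (n + 1)) k)) (setup hhom₀ hno₀ K)
    (fun F hF => Finset.le_sup (f := MvPolynomial.totalDegree) hF) M v
  have hset : {h | PointOutside FF C (orb M ρ v h)} = {h | ∃ h0 : orb M ρ v h ≠ 0,
      (∀ F ∈ (FF₀ : Set (MvPolynomial (Fin (n + 1)) k)),
        MvPolynomial.aeval (orb M ρ v h) F = 0) ∧
      Projectivization.mk K (orb M ρ v h) h0 ∉ C} := by
    ext h
    constructor
    · rintro ⟨h0, h1, h2⟩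
      exact ⟨h0, fun F hF => h1 F (hsub hF), h2⟩
    · rintro ⟨h0, h1, h2⟩
      exact ⟨h0, hzero (MvPolynomial.aeval (orb M ρ v h) :
        MvPolynomial (Fin (n + 1)) k →ₐ[k] K).toRingHom h1, h2⟩
  refine ⟨C, fun p hp h1 => ?_⟩
  have hhit := fun m => hit_eq FF C g M v p m ρ x (fun a => rfl)
  constructor
  · refine tendsto_zero (fun L => div_nonneg (Finset.sum_nonneg fun m _ => prob_nonneg hp m _)
      (Nat.cast_nonneg L)) fun ε hε => ?_
    obtain ⟨L₀, hL₀⟩ : ∃ L₀ : ℕ, 1 / η p ε < L₀ := exists_nat_gt _
    refine ⟨L₀ + 1, fun L hL => ?_⟩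
    have hL0 : 0 < L := by omega
    have hLη : (1 : ℝ) / L ≤ η p ε := by
      have h3 : (L₀ : ℝ) ≤ L := by exact_mod_cast (by omega : L₀ ≤ L)
      have h4 : (0 : ℝ) < L := by exact_mod_cast hL0
      rw [div_le_iff₀ h4]
      have h5 : 1 < L₀ * η p ε := by rwa [div_lt_iff₀ (hη p ε)] at hL₀
      nlinarith [hη p ε]
    have h2 := hC p hp h1 ε hε _
      (Pool.Agent.K6.H82.RW.av_mean x p (fun a => (hp a).le) h1 0 L hL0)
      ((Pool.Agent.K6.H82.RW.av_stat x p (fun a => (hp a).le) h1 0 L hL0).mono hLη)
    rw [← hset] at h2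
    unfold Pool.Agent.K6.H82.RW.Av at h2
    simp only [zero_add] at h2
    simp only [hhit]
    exact h2
  · rintro ⟨a₀, ha₀⟩
    refine tendsto_zero (fun m => prob_nonneg hp m _) fun ε hε => ?_
    obtain ⟨m₀, hm₀⟩ := Pool.Agent.K6.H82.RW.lazy_stat x p hp h1 a₀ (Subtype.ext ha₀) (hη p ε)
    refine ⟨m₀, fun m hm => ?_⟩
    have h2 := hC p hp h1 ε hε _
      (Pool.Agent.K6.H82.RW.law_mean x p (fun a => (hp a).le) h1 m) (hm₀ m hm)
    rw [← hset] at h2
    rw [hhit]
    exact h2

theorem converse {k : Type} [Field k] [NumberField k] {n : ℕ}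
    (FF : Set (MvPolynomial (Fin (n + 1)) k)) (σ : k →+* ℂ) (h : RandomWords FF) :
    NoRatC σ FF := by
  classical
  by_contra hno
  obtain ⟨r, K, iK, iN, iA, g, M, v, hX, hfin⟩ := Pool.Agent.K6.H82.RW.conv_fin σ FF hno
  obtain ⟨C, hC⟩ := h K Unit r (fun _ => g) M v
  obtain ⟨h1, -⟩ := hC (fun _ => 1) (fun _ => one_pos) (by simp)
  obtain ⟨m₀, hm₀⟩ := hfin C
  have hone : ∀ m ≥ m₀, hit FF C (fun _ : Unit => g) M v (fun _ => 1) m = 1 := by
    intro m hm
    unfold hit prob
    have h2 : ∀ w : Fin m → Unit, w ∈ {w : Fin m → Unit | PointOutside FF C (M.mulVec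
        (((List.ofFn fun i => (fun _ : Unit => g) (w i)).prod : GL (Fin r) K).1.mulVec v))} := by
      intro w
      have h3 : (List.ofFn fun i => (fun _ : Unit => g) (w i)).prod = g ^ m := by
        rw [List.ofFn_const, List.prod_replicate]
      change PointOutside FF C _
      rw [h3]
      obtain ⟨h0, h4⟩ := hm₀ m hm
      exact ⟨h0, hX m, h4⟩
    rw [Finset.filter_true_of_mem fun w _ => h2 w]
    simp
  have h2 : Tendsto (fun L : ℕ => (∑ m ∈ Finset.range L,
      hit FF C (fun _ : Unit => g) M v (fun _ => 1) m) / L) atTop (𝓝 1) := by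
    have h3 : Tendsto (fun m => hit FF C (fun _ : Unit => g) M v (fun _ => 1) m) atTop (𝓝 1) :=
      tendsto_const_nhds.congr' (by
        filter_upwards [eventually_ge_atTop m₀] with m hm
        exact (hone m hm).symm)
    have h4 := h3.cesaro
    refine h4.congr fun L => ?_
    rw [div_eq_inv_mul]
  exact one_ne_zero (tendsto_nhds_unique h2 h1)

theorem result :
    (∀ (k : Type) [Field k] [NumberField k] (n : ℕ) (FF : Set (MvPolynomial (Fin (n + 1)) k)),
      (∀ F ∈ FF, ∃ e, F.IsHomogeneous e) → ∀ σ : k →+* ℂ,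
      -- (1)
      (BrodyHyperbolic ((MvPolynomial.map σ) '' FF) → NoRatC σ FF) ∧
      -- (2)
      (NoRatC σ FF ↔ RandomWords FF)) ∧
    -- (3)
    ∀ (H : Type) [Group H] (A : Type) [Fintype A] (x : A → H),
      Subgroup.closure (Set.range x) = ⊤ →
      ∀ (K : Type) [Field K] [NumberField K] (r : ℕ) (ρ : H →* GL (Fin r) K),
      ∃ B : ℕ, ∀ d : ℕ, ∃ η : (A → ℝ) → ℝ → ℝ, (∀ p ε, 0 < η p ε) ∧
        ∀ (k : Type) [Field k] [NumberField k] [Algebra k K] (σ : k →+* ℂ) (n : ℕ)
          (FF : Set (MvPolynomial (Fin (n + 1)) k)), (∀ F ∈ FF, ∃ e ≤ d, F.IsHomogeneous e) →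
          NoRatC σ FF → ∀ (M : Matrix (Fin (n + 1)) (Fin r) K) (v : Fin r → K),
          ∃ C : Finset (Projectivization K (Fin (n + 1) → K)), C.card ≤ B ∧
            ∀ p : A → ℝ, (∀ a, 0 < p a) → ∑ a, p a = 1 → ∀ ε : ℝ, 0 < ε →
            ∀ μ : Set H → ℝ, IsMean μ → AlmostStationary x p (η p ε) μ →
              μ {h | PointOutside FF C (M.mulVec ((ρ h).1.mulVec v))} ≤ ε := by
  refine ⟨fun k _ _ n FF hhom σ => ⟨?_, random FF hhom σ, converse FF σ⟩, ?_⟩
  · intro hyp q hq i j a b
    refine Pool.Agent.TH409.SH.no_curveC' _ ?_ hyp q ?_ i j a b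
    · rintro _ ⟨F, hF, rfl⟩
      obtain ⟨e, he⟩ := hhom F hF
      exact ⟨e, he.map _⟩
    · rintro _ ⟨F, hF, rfl⟩
      rw [MvPolynomial.aeval_def, MvPolynomial.eval₂_map]
      exact hq F hF
  · intro H _ A _ x hx K _ _ r ρ
    obtain ⟨B, hB⟩ := Pool.Agent.K6.H82.RW.app ρ x hx
    refine ⟨B, fun d => ?_⟩
    obtain ⟨η, hη, hB⟩ := hB d
    refine ⟨η, hη, fun k _ _ _ σ n FF hhom hno M v => ?_⟩
    obtain ⟨C, hCB, hC⟩ := hB k n FF
      (setup (fun F hF => by obtain ⟨e, -, he⟩ := hhom F hF; exact ⟨e, he⟩) hno K)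
      (fun F hF => by obtain ⟨e, hed, he⟩ := hhom F hF; exact he.totalDegree_le.trans hed) M v
    refine ⟨C, hCB, fun p hp h1 ε hε μ hμ hst => ?_⟩
    exact hC p hp h1 ε hε μ ⟨hμ.1, hμ.2.1, hμ.2.2⟩ (fun S => by
      have := (abs_le.1 (hst S)).2
      linarith)

end Pool.Agent.Results.MP_627a61_nt.RandomProducts
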