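import Pool.Agent.K6.H47.SG.Conv

set_option autoImplicit false

/-!
# Regular sequences and semigroups of matrices on hyperbolic varieties

Let `X` be the closed subset of projective `n`-space over a number field `k` given by the forms in
`FF`, and let `σ` be an embedding of `k` in `ℂ`.

(1) If `X_σ` is Brody (equivalently Kobayashi) hyperbolic, then `X_σ` contains no nonconstant
rational curve.

(2) `X_σ` contains no nonconstant rational curve if and only if for all number fields `K ⊇ k` the
following holds.  Let `A` be a finite alphabet. A letter `a`, together with an element `h` of a group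
`H a`, represents a square matrix over `K`, of any rank, whose entries are polynomials in the
entries of `ρ_a(h)`, where `ρ_a` is a representation of `H a` over `K`.  (For trivial groups this is
one matrix for each letter; for unipotent representations of `ℤ ^ N` the entries are arbitrary
polynomials in `N` integers, and each occurrence of the letter in a word has its own integers.)  If
all words in a regular language over `A`, with all elements of the groups, represent zero or points
`M B₁ ⋯ B_m v` of `X(K)`, then these are only finitely many points.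

(3) Let `q ≥ 2`. A sequence `x(m)` of vectors over `K` is `q`-regular (Allouche and Shallit) if the
sequences `x(q ^ e m + j)`, `j < q ^ e`, span a finite dimensional space, and a sequence `c(m)` is
`q`-automatic if these sequences are finite in number.  `X_σ` contains no nonconstant rational curve
if and only if over all number fields `K ⊇ k` every `q`-regular sequence of vectors which are zero or
points of `X(K)` has the form `x(m) = s(m) c(m)` with scalars `s(m)` and a `q`-automatic sequence of
vectors `c(m)`; in particular it consists of finitely many points.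

The matrices are not invertible, so that the words do not give orbits of groups.  Method: the
Zariski closure of the monoid generated by the matrices is covered by the closures of finitely many
irreducible sets `q₁ C₁ h₁ C₁' q₁' q₂ C₂ h₂ ⋯`, where the `q_i` run through letters and the `h_i`
through irreducible groups of matrices (`word_cover`), by induction on the rank: the products along
the closed paths of the graph of all pairs of irreducible sets whose product has the same generic
rank give a group.  Rational maps from such sets to a variety without rational curves are constant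
by the theorem on orbits of groups (`uni_core` of the starting files), and the left
multiplications by letters permit to read off the set from a word by a finite automaton.
-/

namespace Pool.Agent.Results.MP_627a61_nt.RegularSequences

open Matrix Pool.Agent.H458.Sp Pool.Agent.TH717.GO Pool.Agent.K6.H47.SG

/-- Regular languages of words of matrices depending on elements of groups, all of which represent
zero or points of the zero set `X` of `FF`, represent finitely many points. -/
def LanguagesFinite {n : ℕ} {k : Type} [Field k] (FF : Set (MvPolynomial (Fin (n + 1)) k)) : Prop :=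
  ∀ (K : Type) [Field K] [NumberField K] [Algebra k K] (A : Type) [Finite A]
    (H : A → Type) [∀ a, Group (H a)] (d : A → ℕ) (ρ : ∀ a, H a →* GL (Fin (d a)) K) (r : ℕ)
    (P : ∀ a, Fin r → Fin r → MvPolynomial (Fin (d a) × Fin (d a)) K)
    (M : Matrix (Fin (n + 1)) (Fin r) K) (v : Fin r → K) (𝓛 : Language A), 𝓛.IsRegular →
    (∀ w : List (Σ a, H a), w.map Sigma.fst ∈ 𝓛 → ∀ F ∈ FF,
      MvPolynomial.aeval (wordVec ρ P M v w) F = 0) →
    {p : Projectivization K (Fin (n + 1) → K) | ∃ (w : List (Σ a, H a))
      (h0 : wordVec ρ P M v w ≠ 0), w.map Sigma.fst ∈ 𝓛 ∧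
        p = Projectivization.mk K (wordVec ρ P M v w) h0}.Finite

/-- Every `q`-regular sequence of vectors which are zero or points of the zero set `X` of `FF` is
the product of a sequence of scalars and a `q`-automatic sequence of vectors. -/
def SequencesAutomatic {n : ℕ} {k : Type} [Field k] (q : ℕ)
    (FF : Set (MvPolynomial (Fin (n + 1)) k)) : Prop :=
  ∀ (K : Type) [Field K] [NumberField K] [Algebra k K] (x : ℕ → Fin (n + 1) → K),
    FiniteDimensional K (Submodule.span K (kernel q x)) →
    (∀ m, ∀ F ∈ FF, MvPolynomial.aeval (x m) F = 0) →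
    ∃ (s : ℕ → K) (c : ℕ → Fin (n + 1) → K), (kernel q c).Finite ∧ ∀ m, x m = s m • c m

theorem setup {k : Type} [Field k] [NumberField k] {n : ℕ}
    {FF : Set (MvPolynomial (Fin (n + 1)) k)} (hhom : ∀ F ∈ FF, ∃ e, F.IsHomogeneous e)
    {σ : k →+* ℂ} (hno : NoRatC σ FF) (K : Type) [Field K] [NumberField K] [Algebra k K] :
    Setup k n FF K where
  czero := inferInstance
  hom := hhom
  cur := fun R => noRat_all σ FF hno R
  spec := ⟨_, specDeg_of_numberField K _ le_rfl⟩

theorem finite_points {K : Type} [Field K] {n : ℕ} {C : Set (Fin (n + 1) → K)} (hC : C.Finite)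
    {S : Set (Projectivization K (Fin (n + 1) → K))}
    (h : ∀ p ∈ S, ∃ (x : Fin (n + 1) → K) (h0 : x ≠ 0), p = Projectivization.mk K x h0 ∧
      ∃ c ∈ C, ∃ s : K, x = s • c) : S.Finite := by
  classical
  have hfin : Finite C := hC
  let f : C → Projectivization K (Fin (n + 1) → K) := fun c =>
    if h : c.1 ≠ 0 then Projectivization.mk K c.1 h else Projectivization.mk K (fun _ => 1)
      (fun h => one_ne_zero (congrFun h 0))
  refine (Set.finite_range f).subset fun p hp => ?_
  obtain ⟨x, h0, rfl, c, hc, s, rfl⟩ := h p hp
  have hc0 : c ≠ 0 := fun h => h0 (by rw [h, smul_zero])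
  have hs0 : s ≠ 0 := fun h => h0 (by rw [h, zero_smul])
  refine ⟨⟨c, hc⟩, ?_⟩
  change (if h : c ≠ 0 then _ else _) = _
  rw [dif_pos hc0, Projectivization.mk_eq_mk_iff']
  exact ⟨s⁻¹, by rw [smul_smul, inv_mul_cancel₀ hs0, one_smul]⟩

theorem finite_range_of_kernel {V : Type} {q : ℕ} (hq : 2 ≤ q) {c : ℕ → V}
    (h : (kernel q c).Finite) : (Set.range c).Finite := by
  refine (h.image fun y => y 0).subset ?_
  rintro _ ⟨m, rfl⟩
  exact ⟨_, ⟨m, m, Nat.lt_pow_self (by omega), rfl⟩, by simp⟩

theorem result (k : Type) [Field k] [NumberField k] (n : ℕ)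
    (FF : Set (MvPolynomial (Fin (n + 1)) k)) (hhom : ∀ F ∈ FF, ∃ e, F.IsHomogeneous e)
    (σ : k →+* ℂ) :
    (BrodyHyperbolic ((MvPolynomial.map σ) '' FF) → NoRatC σ FF) ∧
    (NoRatC σ FF ↔ LanguagesFinite FF) ∧
    ∀ q : ℕ, 2 ≤ q → (NoRatC σ FF ↔ SequencesAutomatic q FF) := by
  classical
  refine ⟨?_, ⟨?_, ?_⟩, fun q hq => ⟨?_, ?_⟩⟩
  · intro hyp q hq i j a b
    refine Pool.Agent.TH409.SH.no_curveC' _ ?_ hyp q ?_ i j a b
    · rintro _ ⟨F, hF, rfl⟩
      obtain ⟨e, he⟩ := hhom F hF
      exact ⟨e, he.map _⟩
    · rintro _ ⟨F, hF, rfl⟩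
      rw [MvPolynomial.aeval_def, MvPolynomial.eval₂_map]
      exact hq F hF
  · intro hno K _ _ _ A _ H _ d ρ r P M v 𝓛 hreg hX
    by_cases h0 : (0 : Fin (n + 1) → K) ∈ cone FF K
    · obtain ⟨C, hC, hw⟩ := words_lines (setup hhom hno K) h0 ρ P M v 𝓛 hreg hX
      refine finite_points hC ?_
      rintro p ⟨w, h1, h2, rfl⟩
      exact ⟨_, h1, rfl, hw w h2⟩
    · -- one of the forms is a nonzero constant
      have h1 : ∃ F ∈ FF, MvPolynomial.aeval (0 : Fin (n + 1) → K) F ≠ 0 := by
        by_contra h
        push Not at h
        exact h0 h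
      obtain ⟨F, hF, hne⟩ := h1
      obtain ⟨e, he⟩ := hhom F hF
      have h2 : MvPolynomial.constantCoeff F ≠ 0 := by
        intro h2
        apply hne
        rw [MvPolynomial.aeval_zero, h2, map_zero]
      have he0 : e = 0 := by
        by_contra he0
        exact h2 (he.coeff_eq_zero (by rwa [map_zero, ne_comm]))
      have hFC : F = MvPolynomial.C (MvPolynomial.coeff 0 F) := by
        rw [he0] at he
        exact MvPolynomial.totalDegree_eq_zero_iff_eq_C.1
          ((MvPolynomial.totalDegree_zero_iff_isHomogeneous _).2 he)
      refine Set.Finite.subset Set.finite_empty ?_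
      rintro p ⟨w, h3, h4, rfl⟩
      exfalso
      have h5 := hX w h4 F hF
      rw [hFC, MvPolynomial.algHom_C] at h5
      exact h2 ((map_eq_zero (algebraMap k K)).1 h5)
  · intro hf
    by_contra hno
    obtain ⟨r, K, iK, iN, iA, ρ, M, v, -, hX, hinf⟩ := converse_noRat σ FF hno
    let ρ' : Unit → Multiplicative ℤ →* GL (Fin r) K := fun _ => ρ
    let P : Unit → Fin r → Fin r → MvPolynomial (Fin r × Fin r) K := fun _ i j =>
      MvPolynomial.X (i, j)
    have hlet : ∀ x : Σ _ : Unit, Multiplicative ℤ,
        letterMat (H := fun _ => Multiplicative ℤ) (d := fun _ => r) ρ' P x =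
          (ρ x.2 : Matrix (Fin r) (Fin r) K) := by
      intro x
      ext i j
      change MvPolynomial.aeval _ (MvPolynomial.X (i, j)) = _
      rw [MvPolynomial.aeval_X]
    have hprod : ∀ w : List (Σ _ : Unit, Multiplicative ℤ),
        (w.map (letterMat (H := fun _ => Multiplicative ℤ) (d := fun _ => r) ρ' P)).prod =
          (ρ (w.map Sigma.snd).prod : Matrix (Fin r) (Fin r) K) := by
      intro w
      induction w with
      | nil => simp
      | cons x w ih =>
        rw [List.map_cons, List.prod_cons, ih, hlet, List.map_cons, List.prod_cons, map_mul,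
          GeneralLinearGroup.coe_mul]
    have hvec : ∀ w : List (Σ _ : Unit, Multiplicative ℤ),
        wordVec (H := fun _ => Multiplicative ℤ) (d := fun _ => r) ρ' P M v w =
          orb M ρ v (w.map Sigma.snd).prod := by
      intro w
      unfold wordVec
      rw [hprod]
      rfl
    have h1 := hf K Unit (fun _ => Multiplicative ℤ) (fun _ => r) ρ' r P M v
      ((⊤ : Set (List Unit)) : Language Unit) ⟨Unit, inferInstance,
        { step := fun _ _ => (), start := (), accept := Set.univ }, rfl⟩ (fun w _ F hF => by
          rw [hvec]
          exact hX _ F hF)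
    refine hinf (h1.subset ?_)
    rintro p ⟨h, h0, rfl⟩
    have h2 : wordVec (H := fun _ => Multiplicative ℤ) (d := fun _ => r) ρ' P M v [⟨(), h⟩] =
        orb M ρ v h := by
      rw [hvec]
      simp
    refine ⟨[⟨(), h⟩], by rw [h2]; exact h0, trivial, ?_⟩
    simp only [h2]
  · intro hno K _ _ _ x hx hX
    exact regular_auto (setup hhom hno K) q hq x (Module.Finite.iff_fg.1 hx) hX
  · intro hf
    by_contra hno
    obtain ⟨K, iK, iN, iA, x, h1, h2, hinf⟩ := conv_regular σ FF hno q hq
    obtain ⟨s, c, hc, hx⟩ := hf K x (Module.Finite.iff_fg.2 h1) h2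
    refine hinf (finite_points (finite_range_of_kernel hq hc) ?_)
    rintro p ⟨m, h0, rfl⟩
    exact ⟨_, h0, rfl, c m, ⟨m, rfl⟩, s m, hx m⟩

end Pool.Agent.Results.MP_627a61_nt.RegularSequences
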